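import Pool.Agent.H933R2.Hopf.Mean

/-!
# The Hopf sign in dimension six for nonpositive curvature with pinched mean

At a point where all sectional curvatures lie in `[-c, 0]` and the mean of the sectional curvatures is
at most `-(4 / 5) c` (scalar curvature at most `-24 c`), the Gauss-Bonnet-Chern integrand of
a Riemannian six-manifold is at most `-(1 / 100)` times its absolute value for constant
curvature `c`. No lower bound is required for the absolute values of the sectional curvatures.
See `Pool/Agent/H933R2/Hopf/` (a development of the starting repository).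
-/

namespace Pool.Agent.Results.MP_5a30bb_gt.MeanPinchedDimSix

open Hopf6 MeasureTheory

/-- Nonpositive curvature with pinched mean in dimension six. -/
theorem result :
    (∀ (V : Type) [NormedAddCommGroup V] [InnerProductSpace ℝ V]
      (e : OrthonormalBasis (Fin 6) ℝ V) (R : V → V → V → V → ℝ), AlgCurv R →
      ∀ c : ℝ, 0 ≤ c → Hopf6.SecIn R (-c) 0 → Hopf6.scalar e R ≤ -(24 * c) →
        Hopf6.gbc e R ≤ -(1 / 100 * roundGB c) ∧ Hopf6.gbc e R ≤ 0) ∧
    (∀ (M : Type) [MeasurableSpace M] (μ : Measure M) (K : CurvField M) (c : M → ℝ),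
      (∀ p, 0 ≤ c p ∧ K.SecIn p (-(c p)) 0 ∧ K.scal p ≤ -(24 * c p)) →
        ∫ p, K.gbc p ∂μ ≤ 0 ∧
        (Integrable K.gbc μ → μ {p | 0 < c p} ≠ 0 → ∫ p, K.gbc p ∂μ < 0)) := by
  have hpt : ∀ (V : Type) [NormedAddCommGroup V] [InnerProductSpace ℝ V]
      (e : OrthonormalBasis (Fin 6) ℝ V) (R : V → V → V → V → ℝ), AlgCurv R →
      ∀ c : ℝ, 0 ≤ c → Hopf6.SecIn R (-c) 0 → Hopf6.scalar e R ≤ -(24 * c) →
        Hopf6.gbc e R ≤ -(1 / 100 * roundGB c) ∧ Hopf6.gbc e R ≤ 0 := by
    intro V _ _ e R hR c hc h hs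
    have h1 := mean_point_neg e hR hc h hs
    refine ⟨h1, le_trans h1 ?_⟩
    have := roundGB_nonneg hc
    linarith
  refine ⟨hpt, ?_⟩
  intro M _ μ K c h
  have hle : ∀ p, K.gbc p ≤ -(1 / 100 * roundGB (c p)) ∧ K.gbc p ≤ 0 := fun p =>
    hpt (K.V p) (K.e p) (K.R p) (K.curv p) (c p) (h p).1 (h p).2.1 (h p).2.2
  refine ⟨integral_nonpos fun p => (hle p).2, ?_⟩
  intro hint hμ
  have hint' : Integrable (fun p => -(K.gbc p)) μ := hint.neg
  have h0' : 0 ≤ fun p => -(K.gbc p) := fun p => by
    have := (hle p).2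
    simp only [Pi.zero_apply]
    linarith
  have h2 : 0 < ∫ p, -(K.gbc p) ∂μ := by
    rw [integral_pos_iff_support_of_nonneg h0' hint']
    have hs : {p | 0 < c p} ⊆ Function.support (fun p => -(K.gbc p)) := by
      intro p hp
      simp only [Function.mem_support]
      have h3 := (hle p).1
      have h4 := roundGB_pos (show 0 < c p from hp)
      intro h0
      linarith
    exact lt_of_lt_of_le (pos_iff_ne_zero.2 hμ) (measure_mono hs)
  rw [integral_neg] at h2
  linarith

end Pool.Agent.Results.MP_5a30bb_gt.MeanPinchedDimSix
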