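import Pool.Agent.H933R2.Hopf.Main

/-!
# The Hopf sign in dimension six for negative curvature with pinching `8 / 35`

At a point where all sectional curvatures lie in `[-(35 / 8) c, -c]` for some `c > 0`, the
Gauss-Bonnet-Chern integrand of a Riemannian six-manifold is at most `-(1 / 50)` times its absolute
value for constant curvature `c`; in particular it is negative, and so is its integral, which is the
Euler characteristic of the manifold when the manifold is closed.

The proof (see `Pool/Agent/H933R2/Hopf/`, a development of the starting repository) averages, over a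
quadrature formula on the sphere which is exact for sextic forms, cubic inequalities for the Jacobi
operators and for the Weyl part of the restriction of the curvature tensor to hyperplanes.
-/

namespace Pool.Agent.Results.MP_5a30bb_gt.PinchedDimSix

open Hopf6 MeasureTheory

/-- Negative curvature with pointwise pinching `8 / 35` in dimension six. -/
theorem result :
    (∀ (V : Type) [NormedAddCommGroup V] [InnerProductSpace ℝ V]
      (e : OrthonormalBasis (Fin 6) ℝ V) (R : V → V → V → V → ℝ), AlgCurv R →
      ∀ c : ℝ, 0 < c → Hopf6.SecIn R (-(35 / 8 * c)) (-c) →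
        Hopf6.gbc e R ≤ -(1 / 50 * roundGB c) ∧ Hopf6.gbc e R < 0) ∧
    (∀ (M : Type) [MeasurableSpace M] (μ : Measure M) (K : CurvField M) (c : M → ℝ), μ ≠ 0 →
      (∀ p, 0 < c p ∧ K.SecIn p (-(35 / 8 * c p)) (-(c p))) → Integrable K.gbc μ →
        ∫ p, K.gbc p ∂μ < 0) := by
  have hpt : ∀ (V : Type) [NormedAddCommGroup V] [InnerProductSpace ℝ V]
      (e : OrthonormalBasis (Fin 6) ℝ V) (R : V → V → V → V → ℝ), AlgCurv R →
      ∀ c : ℝ, 0 < c → Hopf6.SecIn R (-(35 / 8 * c)) (-c) →
        Hopf6.gbc e R ≤ -(1 / 50 * roundGB c) ∧ Hopf6.gbc e R < 0 := by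
    intro V _ _ e R hR c hc h
    have h1 := point_neg e hR hc h
    refine ⟨h1, lt_of_le_of_lt h1 ?_⟩
    have := roundGB_pos hc
    linarith
  refine ⟨hpt, ?_⟩
  intro M _ μ K c hμ h hint
  have hneg : ∀ p, K.gbc p < 0 := fun p =>
    (hpt (K.V p) (K.e p) (K.R p) (K.curv p) (c p) (h p).1 (h p).2).2
  have hint' : Integrable (fun p => -(K.gbc p)) μ := hint.neg
  have h0' : 0 ≤ fun p => -(K.gbc p) := fun p => by
    have := hneg p
    simp only [Pi.zero_apply]
    linarith
  have h2 : 0 < ∫ p, -(K.gbc p) ∂μ := by
    rw [integral_pos_iff_support_of_nonneg h0' hint']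
    have hs : Function.support (fun p => -(K.gbc p)) = Set.univ := by
      ext p
      simp only [Function.mem_support, Set.mem_univ, iff_true]
      have := hneg p
      intro h0
      linarith
    rw [hs]
    exact Measure.measure_univ_pos.2 hμ
  rw [integral_neg] at h2
  linarith

end Pool.Agent.Results.MP_5a30bb_gt.PinchedDimSix
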